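import Pool.Agent.H520Z.Sel.Defs2

set_option autoImplicit false

namespace Pool.Agent.H520Z.Sel

open MeasureTheory Set Filter Topology

namespace H404

lemma mem_l1 {f : ℕ → ℝ} : Memℓp f 1 ↔ Summable fun j => |f j| := by
  rw [memℓp_gen_iff (by simp)]
  simp

lemma norm_l1 (f : lp (fun _ : ℕ => ℝ) 1) : ‖f‖ = ∑' j, |f j| := by
  have := lp.hasSum_norm (p := 1) (by simp) f
  simp only [ENNReal.toReal_one, Real.rpow_one, Real.norm_eq_abs] at this
  exact this.tsum_eq.symm

lemma fixedpt (ρ : ℝ) (hρ : 0 ≤ ρ) (Φ : (ℕ → ℝ) → (ℕ → ℝ))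
    (h1 : ∀ m : ℕ → ℝ, Summable (fun j => |m j|) → ∑' j, |m j| ≤ ρ →
      Summable (fun j => |Φ m j|) ∧ ∑' j, |Φ m j| ≤ ρ)
    (h2 : ∀ m m' : ℕ → ℝ, Summable (fun j => |m j|) → ∑' j, |m j| ≤ ρ →
      Summable (fun j => |m' j|) → ∑' j, |m' j| ≤ ρ →
      ∑' j, |Φ m j - Φ m' j| ≤ (1 / 2) * ∑' j, |m j - m' j|) :
    ∃ m : ℕ → ℝ, Summable (fun j => |m j|) ∧ ∑' j, |m j| ≤ ρ ∧ Φ m = m := by
  let S := {f : lp (fun _ : ℕ => ℝ) 1 // ‖f‖ ≤ ρ}
  have hcl : IsClosed {f : lp (fun _ : ℕ => ℝ) 1 | ‖f‖ ≤ ρ} :=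
    isClosed_le continuous_norm continuous_const
  have : CompleteSpace S := hcl.isComplete.completeSpace_coe
  have : Nonempty S := ⟨⟨0, by simpa using hρ⟩⟩
  have hs : ∀ f : S, Summable (fun j => |f.1 j|) ∧ ∑' j, |f.1 j| ≤ ρ := fun f =>
    ⟨mem_l1.1 f.1.2, by rw [← norm_l1]; exact f.2⟩
  let F : S → S := fun f => ⟨⟨Φ f.1, mem_l1.2 (h1 _ (hs f).1 (hs f).2).1⟩, by
    rw [norm_l1]; exact (h1 _ (hs f).1 (hs f).2).2⟩
  have hF : ContractingWith (1 / 2) F := by
    refine ⟨by norm_num, LipschitzWith.of_dist_le_mul fun f g => ?_⟩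
    rw [Subtype.dist_eq, Subtype.dist_eq, dist_eq_norm, dist_eq_norm, norm_l1, norm_l1]
    have := h2 f.1 g.1 (hs f).1 (hs f).2 (hs g).1 (hs g).2
    simpa [F] using this
  refine ⟨(hF.fixedPoint F).1, (hs _).1, (hs _).2, ?_⟩
  have := hF.fixedPoint_isFixedPt
  exact congrArg (fun f : S => (f.1 : ℕ → ℝ)) this

/-- action of a matrix -/
noncomputable def mat (r : ℕ → ℕ → ℝ) (g : ℕ → ℝ) (j : ℕ) : ℝ := ∑' n, g n * r n j

section matrix
variable {r : ℕ → ℕ → ℝ} {K : ℝ} (hr : ∀ n, Summable (fun j => |r n j|) ∧ ∑' j, |r n j| ≤ K)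
include hr

lemma mat_row {g : ℕ → ℝ} (n : ℕ) : ∑' j, |g n * r n j| ≤ |g n| * K := by
  simp_rw [abs_mul]
  rw [tsum_mul_left]
  exact mul_le_mul_of_nonneg_left (hr n).2 (abs_nonneg _)

lemma mat_summable {g : ℕ → ℝ} (hg : Summable fun n => |g n|) :
    Summable fun z : ℕ × ℕ => |g z.1 * r z.1 z.2| := by
  rw [summable_prod_of_nonneg (fun _ => abs_nonneg _)]
  refine ⟨fun n => ?_, ?_⟩
  · simp_rw [abs_mul]; exact (hr n).1.mul_left _
  · exact Summable.of_nonneg_of_le (fun n => tsum_nonneg fun _ => abs_nonneg _)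
      (fun n => mat_row hr n) (hg.mul_right K)

lemma mat_col {g : ℕ → ℝ} (hg : Summable fun n => |g n|) (j : ℕ) :
    Summable fun n => |g n * r n j| := (mat_summable hr hg).prod_symm.prod_factor j

lemma mat_bound {g : ℕ → ℝ} (hg : Summable fun n => |g n|) :
    Summable (fun j => |mat r g j|) ∧ ∑' j, |mat r g j| ≤ K * ∑' n, |g n| := by
  have hs := mat_summable hr hg
  have h1 : ∀ j, |mat r g j| ≤ ∑' n, |g n * r n j| := fun j => by
    have := norm_tsum_le_tsum_norm (f := fun n => g n * r n j) (mat_col hr hg j)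
    simpa [mat] using this
  have h2 : Summable fun j => ∑' n, |g n * r n j| := hs.prod_symm.prod
  have h3 : Summable fun j => |mat r g j| := Summable.of_nonneg_of_le (fun _ => abs_nonneg _) h1 h2
  refine ⟨h3, (h3.tsum_le_tsum h1 h2).trans ?_⟩
  rw [Summable.tsum_comm (f := fun n j => |g n * r n j|) hs, mul_comm, ← tsum_mul_right]
  exact hs.prod.tsum_le_tsum (fun n => mat_row hr n) (hg.mul_right K)

lemma mat_sub {g g' : ℕ → ℝ} (hg : Summable fun n => |g n|) (hg' : Summable fun n => |g' n|)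
    (j : ℕ) : mat r g j - mat r g' j = mat r (fun n => g n - g' n) j := by
  unfold mat
  rw [← (mat_col hr hg j).of_abs.tsum_sub (mat_col hr hg' j).of_abs]
  congr 1; ext n; ring

lemma mat_fubini {g : ℕ → ℝ} (hg : Summable fun n => |g n|) (σ e : ℕ → ℝ) (M : ℝ)
    (hσ : ∀ j, |σ j| ≤ M) (he : ∀ n, HasSum (fun j => r n j * σ j) (e n)) :
    ∃ S, HasSum (fun n => g n * e n) S ∧ HasSum (fun j => mat r g j * σ j) S := by
  have hs : Summable fun z : ℕ × ℕ => g z.1 * r z.1 z.2 * σ z.2 := by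
    refine Summable.of_norm_bounded ((mat_summable hr hg).mul_right M) fun z => ?_
    rw [Real.norm_eq_abs, abs_mul]
    exact mul_le_mul_of_nonneg_left (hσ _) (abs_nonneg _)
  refine ⟨_, hs.hasSum.prod_fiberwise fun n => ?_, ?_⟩
  · simp_rw [mul_assoc]; exact (he n).mul_left _
  · have h2 := (Equiv.prodComm ℕ ℕ).hasSum_iff.2 hs.hasSum
    refine h2.prod_fiberwise fun j => ?_
    exact ((mat_col hr hg j).of_abs.hasSum).mul_right (σ j)

end matrix

/-- the part of `ec` on composite numbers -/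
noncomputable def gc (u : ℕ → ℝ) (n : ℕ) : ℝ := if 2 ≤ n ∧ ¬ n.Prime then ec u n else 0

lemma ec_split {u : ℕ → ℝ} (hu : ∀ p, ¬ p.Prime → u p = 0) (n : ℕ) :
    ec u n = gc u n + (if n = 1 then 1 else 0) + u n := by
  unfold gc
  by_cases hp : n.Prime
  · rw [ec_prime u hp, if_neg (by tauto), if_neg hp.one_lt.ne']; simp
  · rw [hu n hp]
    rcases Nat.lt_or_ge n 2 with h | h
    · interval_cases n
      · simp [ec_zero]
      · simp [ec_one]
    · rw [if_pos ⟨h, hp⟩, if_neg (by omega)]; simp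

lemma hasSum_gc {c : ℕ → ℝ} (hc : Summable fun p => |c p|) (hu : ∀ p, ¬ p.Prime → c p = 0) :
    HasSum (gc c) (Real.exp (∑' p, c p) - 1 - ∑' p, c p) := by
  have h1 := hasSum_ec_real (c := c) (hc.subtype {p | p.Prime})
  have h2 : ∑' p : Nat.Primes, c p = ∑' p, c p :=
    tsum_subtype_eq_of_support_subset (s := {p | p.Prime}) (f := c) fun p hp => by
      by_contra h; exact hp (hu p h)
  rw [h2] at h1
  have h3 := (h1.sub (hasSum_ite_eq 1 (1 : ℝ))).sub hc.of_abs.hasSum
  have e : gc c = fun b => (ec c b - if b = 1 then 1 else 0) - c b := by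
    ext n
    rw [ec_split hu n]; ring
  rw [e]; exact h3

lemma exp_sub_one_le {x : ℝ} (h0 : 0 ≤ x) (h1 : x ≤ 1) : Real.exp x - 1 ≤ 2 * x := by
  have := Real.abs_exp_sub_one_le (x := x) (by rwa [abs_of_nonneg h0])
  rw [abs_of_nonneg h0] at this
  exact (le_abs_self _).trans this

lemma gc_diff {u u' : ℕ → ℝ} (hu : Summable fun p => |u p|) (hu' : Summable fun p => |u' p|)
    (z : ∀ p, ¬ p.Prime → u p = 0) (z' : ∀ p, ¬ p.Prime → u' p = 0) {t : ℝ} (ht : t ≤ 1)
    (hb : ∑' p, |u' p| + ∑' p, |u p - u' p| ≤ t) :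
    Summable (fun n => |gc u n - gc u' n|) ∧
      ∑' n, |gc u n - gc u' n| ≤ 2 * t * ∑' p, |u p - u' p| := by
  have hd : Summable fun p => |u p - u' p| := (hu.of_abs.sub hu'.of_abs).abs
  have a1 := hasSum_gc (c := fun p => |u' p| + |u p - u' p|) (hu'.add hd).abs
    (fun p hp => by simp [z p hp, z' p hp])
  have a2 := hasSum_gc (c := fun p => |u' p|) hu'.abs (fun p hp => by simp [z' p hp])
  rw [hu'.tsum_add hd] at a1
  have a3 := a1.sub a2
  have hle : ∀ n, |gc u n - gc u' n| ≤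
      gc (fun p => |u' p| + |u p - u' p|) n - gc (fun p => |u' p|) n := by
    intro n
    unfold gc
    split_ifs
    · exact abs_ec_sub_le u u' n
    · simp
  have hs := Summable.of_nonneg_of_le (fun _ => abs_nonneg _) hle a3.summable
  refine ⟨hs, (hasSum_le hle hs.hasSum a3).trans ?_⟩
  set U := ∑' p, |u' p|
  set D := ∑' p, |u p - u' p|
  have U0 : 0 ≤ U := tsum_nonneg fun _ => abs_nonneg _
  have D0 : 0 ≤ D := tsum_nonneg fun _ => abs_nonneg _
  have e1 := exp_sub_one_le (x := U + D) (by linarith) (by linarith)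
  have e2 : Real.exp (U + D) * (1 - D) ≤ Real.exp U := by
    have h3 := Real.add_one_le_exp (-D)
    have h4 : Real.exp U = Real.exp (U + D) * Real.exp (-D) := by
      rw [← Real.exp_add]; congr 1; ring
    rw [h4]
    exact mul_le_mul_of_nonneg_left (by linarith) (Real.exp_pos _).le
  nlinarith

lemma gc_zero (n : ℕ) : gc (fun _ => (0 : ℝ)) n = 0 := by
  have h := hasSum_gc (c := fun _ => (0 : ℝ)) (by simpa using summable_zero) (fun _ _ => rfl)
  simp only [tsum_zero, Real.exp_zero, sub_self] at h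
  have h0 : ∀ n, 0 ≤ gc (fun _ => (0 : ℝ)) n := fun n => by
    unfold gc
    split_ifs
    · exact ec_nonneg (fun _ => le_rfl) n
    · exact le_rfl
  exact le_antisymm (le_hasSum h n fun j _ => h0 j) (h0 n)

end H404

open H404 in
theorem contraction (K : ℝ) (hK : 0 ≤ K) : ∃ δ : ℝ, 0 < δ ∧
    ∀ (H : Type) (ev : H → ℕ → ℝ) (B : ℕ → Finset ℕ) (v : ℕ → ℝ) (r : ℕ → ℕ → ℝ),
      (∀ j, (B j).Nonempty) → (∀ j, ∀ p ∈ B j, p.Prime) →
      (∀ i j, i ≠ j → Disjoint (B i) (B j)) → (∀ j, ∀ p ∈ B j, |v p| ≤ 1) →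
      (∀ n, 1 ≤ n → Summable (fun j => |r n j|) ∧ ∑' j, |r n j| ≤ K) → ∑' j, |r 1 j| ≤ δ →
      (∀ h, ∃ M : ℝ, ∀ n, 1 ≤ n → |ev h n| ≤ M) →
      (∀ h n, 1 ≤ n →
        HasSum (fun j => r n j * ((∑ p ∈ B j, v p * ev h p) / ((B j).card : ℝ))) (ev h n)) →
      ∃ m u : ℕ → ℝ, (∀ j, |m j| ≤ 1) ∧
        (∀ j, ∀ p ∈ B j, u p = m j * v p / ((B j).card : ℝ)) ∧
        (∀ p, (∀ j, p ∉ B j) → u p = 0) ∧ Summable (fun p => |u p|) ∧
        ∀ h, HasSum (fun n => ec u n * ev h n) 0 := by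
  classical
  set ρ : ℝ := 1 / (12 * (K + 1)) with hρ
  have ρ0 : 0 < ρ := by positivity
  have ρK : ρ * (12 * (K + 1)) = 1 := by rw [hρ]; field_simp
  have ρ1 : ρ ≤ 1 / 12 := by nlinarith
  refine ⟨ρ / 2, by positivity, fun H ev B v r hne hpr hdis hv hr hr1 hev hrep => ?_⟩
  let w : ℕ → ℕ → ℝ := fun j p => if p ∈ B j then v p / ((B j).card : ℝ) else 0
  have hcard : ∀ j, (0 : ℝ) < (B j).card := fun j => by exact_mod_cast (hne j).card_pos
  have hw : ∀ j, Summable (fun p => |w j p|) ∧ ∑' p, |w j p| ≤ 1 := by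
    intro j
    have h1 : HasSum (fun p => |w j p|) (∑ p ∈ B j, |w j p|) :=
      hasSum_sum_of_ne_finset_zero fun p hp => by simp [w, hp]
    refine ⟨h1.summable, ?_⟩
    rw [h1.tsum_eq]
    calc ∑ p ∈ B j, |w j p| ≤ ∑ p ∈ B j, 1 / ((B j).card : ℝ) := by
          refine Finset.sum_le_sum fun p hp => ?_
          simp only [w, if_pos hp]
          rw [abs_div, abs_of_pos (hcard j)]
          exact div_le_div_of_nonneg_right (hv j p hp) (hcard j).le
      _ = 1 := by
          rw [Finset.sum_const, nsmul_eq_mul]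
          have := hcard j
          field_simp
  let r' : ℕ → ℕ → ℝ := fun n j => if n = 0 then 0 else r n j
  have hr' : ∀ n, Summable (fun j => |r' n j|) ∧ ∑' j, |r' n j| ≤ K := by
    intro n
    by_cases h : n = 0
    · simp only [r', if_pos h, abs_zero, tsum_zero]; exact ⟨summable_zero, hK⟩
    · simp only [r', if_neg h]; exact hr n (by omega)
  have hu0 : ∀ m : ℕ → ℝ, ∀ p, (∀ j, p ∉ B j) → mat w m p = 0 := by
    intro m p hp
    simp [mat, w, hp]
  have hup : ∀ m : ℕ → ℝ, ∀ p, ¬ p.Prime → mat w m p = 0 := fun m p hp =>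
    hu0 m p fun j hj => hp (hpr j p hj)
  have hgs : ∀ m : ℕ → ℝ, Summable (fun j => |m j|) → ∑' j, |m j| ≤ ρ →
      Summable (fun n => |gc (mat w m) n|) ∧ ∑' n, |gc (mat w m) n| ≤ 2 * ρ * ρ := by
    intro m hm hb
    obtain ⟨a1, a2⟩ := mat_bound hw hm
    have := gc_diff (u := mat w m) (u' := fun _ => 0) a1 (by simpa using summable_zero) (hup m)
      (fun _ _ => rfl) (t := ρ) (by linarith) (by simp; linarith)
    simp only [gc_zero, sub_zero] at this
    refine ⟨this.1, this.2.trans ?_⟩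
    gcongr
    linarith
  let Φ : (ℕ → ℝ) → (ℕ → ℝ) := fun m j => -r 1 j - mat r' (gc (mat w m)) j
  obtain ⟨m, hm, hmb, hfix⟩ := fixedpt ρ ρ0.le Φ (by
      intro m hm hb
      obtain ⟨g1, g2⟩ := hgs m hm hb
      obtain ⟨a1, a2⟩ := mat_bound hr' g1
      have hle : ∀ j, |Φ m j| ≤ |r 1 j| + |mat r' (gc (mat w m)) j| := fun j => by
        have := abs_sub (-r 1 j) (mat r' (gc (mat w m)) j)
        rwa [abs_neg] at this
      have s1 := (hr 1 le_rfl).1
      have s2 := Summable.of_nonneg_of_le (fun _ => abs_nonneg _) hle (s1.add a1)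
      refine ⟨s2, (s2.tsum_le_tsum hle (s1.add a1)).trans ?_⟩
      rw [s1.tsum_add a1]
      have : K * ∑' n, |gc (mat w m) n| ≤ K * (2 * ρ * ρ) := by gcongr
      nlinarith) (by
      intro m m' hm hb hm' hb'
      obtain ⟨g1, -⟩ := hgs m hm hb
      obtain ⟨g1', -⟩ := hgs m' hm' hb'
      obtain ⟨a1, a2⟩ := mat_bound hw hm
      obtain ⟨a1', a2'⟩ := mat_bound hw hm'
      have hd : Summable fun j => |m j - m' j| := (hm.of_abs.sub hm'.of_abs).abs
      obtain ⟨-, b2⟩ := mat_bound hw hd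
      simp_rw [← mat_sub hw hm hm'] at b2
      have hdb : ∑' j, |m j - m' j| ≤ 2 * ρ := by
        refine (hd.tsum_le_tsum (fun j => abs_sub (m j) (m' j)) (hm.add hm')).trans ?_
        rw [hm.tsum_add hm']; linarith
      obtain ⟨c1, c2⟩ := gc_diff a1 a1' (hup m) (hup m') (t := 3 * ρ) (by linarith) (by linarith)
      obtain ⟨-, d2⟩ := mat_bound hr' c1
      have e : ∀ j, |Φ m j - Φ m' j| =
          |mat r' (fun n => gc (mat w m) n - gc (mat w m') n) j| := fun j => by
        rw [← mat_sub hr' g1 g1', ← abs_neg]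
        congr 1
        simp only [Φ]; ring
      simp_rw [e]
      have D0 : 0 ≤ ∑' j, |m j - m' j| := tsum_nonneg fun _ => abs_nonneg _
      have f1 : 2 * (3 * ρ) * ∑' p, |mat w m p - mat w m' p| ≤ 2 * (3 * ρ) * ∑' j, |m j - m' j| :=
        mul_le_mul_of_nonneg_left (by linarith) (by positivity)
      have f2 : K * ∑' n, |gc (mat w m) n - gc (mat w m') n| ≤
          K * (2 * (3 * ρ) * ∑' j, |m j - m' j|) :=
        mul_le_mul_of_nonneg_left (by linarith) hK
      have f3 : K * (2 * (3 * ρ)) ≤ 1 / 2 := by nlinarith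
      nlinarith)
  obtain ⟨a1, -⟩ := mat_bound hw hm
  refine ⟨m, mat w m, fun j => ?_, fun j p hp => ?_, hu0 m, a1, fun h => ?_⟩
  · have := hm.le_tsum j fun _ _ => abs_nonneg _
    linarith
  · unfold mat
    rw [tsum_eq_single j]
    · simp only [w, if_pos hp]; ring
    · intro i hi
      have : p ∉ B i := Finset.disjoint_right.1 (hdis i j hi) hp
      simp [w, this]
  · obtain ⟨M, hM⟩ := hev h
    set σ : ℕ → ℝ := fun j => (∑ p ∈ B j, v p * ev h p) / ((B j).card : ℝ) with hσ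
    have M0 : 0 ≤ M := (abs_nonneg _).trans (hM 1 le_rfl)
    have hσb : ∀ j, |σ j| ≤ M := by
      intro j
      rw [hσ]
      simp only
      rw [abs_div, abs_of_pos (hcard j), div_le_iff₀ (hcard j)]
      refine (Finset.abs_sum_le_sum_abs _ _).trans ?_
      rw [mul_comm, ← nsmul_eq_mul, ← Finset.sum_const]
      refine Finset.sum_le_sum fun p hp => ?_
      rw [abs_mul]
      have := mul_le_mul (hv j p hp) (hM p (hpr j p hp).one_lt.le) (abs_nonneg _) zero_le_one
      linarith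
    let e' : ℕ → ℝ := fun n => if n = 0 then 0 else ev h n
    obtain ⟨S1, s1, t1⟩ := mat_fubini hr' (hgs m hm hmb).1 σ e' M hσb (fun n => by
      by_cases h0 : n = 0
      · simp only [r', e', if_pos h0, zero_mul]; exact hasSum_zero
      · simp only [r', e', if_neg h0]; exact hrep h n (by omega))
    obtain ⟨S2, s2, t2⟩ := mat_fubini hw hm e' σ M (fun n => by
      by_cases h0 : n = 0
      · simp only [e', if_pos h0, abs_zero]; exact M0
      · simp only [e', if_neg h0]; exact hM n (by omega)) (fun j => by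
      have h1 : HasSum (fun p => w j p * e' p) (∑ p ∈ B j, w j p * e' p) :=
        hasSum_sum_of_ne_finset_zero fun p hp => by simp [w, hp]
      convert h1 using 1
      rw [hσ]
      simp only
      rw [Finset.sum_div]
      refine Finset.sum_congr rfl fun p hp => ?_
      simp only [w, e', if_pos hp, if_neg (hpr j p hp).ne_zero]
      ring)
    have t3 := hrep h 1 le_rfl
    have hz : S1 + ev h 1 + S2 = 0 := by
      refine ((t1.add t3).add s2).unique ?_
      convert hasSum_zero using 1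
      ext j
      have := congrFun hfix j
      simp only [Φ] at this
      change mat r' (gc (mat w m)) j * σ j + r 1 j * σ j + m j * σ j = 0
      linear_combination (-σ j) * this
    rw [← hz]
    convert (s1.add (hasSum_ite_eq 1 (ev h 1))).add t2 using 1
    ext n
    rw [ec_split (hup m) n]
    by_cases h0 : n = 0
    · subst h0
      simp [e', gc, hup m 0 Nat.not_prime_zero]
    · simp only [e', if_neg h0]
      split_ifs with h1
      · subst h1; ring
      · ring

end Pool.Agent.H520Z.Sel
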